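import Pool.Agent.W78.GA.Defs

/-!
Project GA (helper78): basic facts on the quadratic order, `nm`, `ps`, `prim`, `lat`, `ball`.
-/

set_option autoImplicit false

namespace Pool.Agent.W78.GA

open Finset Filter
open Pool.Agent.H376R2.MR

variable {t c : ℤ}

lemma four_nm (z : Qd t c) : 4 * (z.re ^ 2 + t * z.re * z.im + c * z.im ^ 2) =
    (2 * z.re + t * z.im) ^ 2 + (4 * c - t ^ 2) * z.im ^ 2 := by ring

lemma nm_nonneg (hD : t ^ 2 < 4 * c) (z : Qd t c) :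
    0 ≤ z.re ^ 2 + t * z.re * z.im + c * z.im ^ 2 := by
  have h := four_nm z
  have h1 : 0 ≤ (4 * c - t ^ 2) * z.im ^ 2 := mul_nonneg (by linarith) (sq_nonneg _)
  nlinarith [sq_nonneg (2 * z.re + t * z.im)]

lemma nm_cast (hD : t ^ 2 < 4 * c) (z : Qd t c) :
    (nm z : ℤ) = z.re ^ 2 + t * z.re * z.im + c * z.im ^ 2 := by
  unfold nm
  exact Int.natAbs_of_nonneg (nm_nonneg hD z)

lemma nm_castR (hD : t ^ 2 < 4 * c) (z : Qd t c) :
    (nm z : ℝ) = (z.re : ℝ) ^ 2 + t * z.re * z.im + c * (z.im : ℝ) ^ 2 := by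
  have := nm_cast hD z
  exact_mod_cast this

lemma nm_eq_norm (z : Qd t c) : nm z = (QuadraticAlgebra.norm z).natAbs := by
  unfold nm
  rw [QuadraticAlgebra.norm_def]
  congr 1
  ring

lemma disc_pos (hD : t ^ 2 < 4 * c) : (0 : ℝ) < 4 * c - t ^ 2 := by
  have : ((t ^ 2 : ℤ) : ℝ) < ((4 * c : ℤ) : ℝ) := by exact_mod_cast hD
  push_cast at this
  linarith

lemma three_le_disc (hD : t ^ 2 < 4 * c) : (3 : ℝ) ≤ 4 * c - t ^ 2 := by
  have h : 3 ≤ 4 * c - t ^ 2 := by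
    rcases Int.even_or_odd t with ⟨s, hs⟩ | ⟨s, hs⟩
    · have : t ^ 2 = 4 * s ^ 2 := by rw [hs]; ring
      omega
    · have : t ^ 2 = 4 * (s ^ 2 + s) + 1 := by rw [hs]; ring
      omega
  exact_mod_cast h

lemma tc_re (z : Qd t c) : (tc z).re = (z.re : ℝ) + t * z.im / 2 := rfl

lemma tc_im (z : Qd t c) : (tc z).im = (z.im : ℝ) * Real.sqrt (4 * c - t ^ 2) / 2 := rfl

lemma nm_eq_norm_sq (hD : t ^ 2 < 4 * c) (z : Qd t c) : (nm z : ℝ) = ‖tc z‖ ^ 2 := by
  rw [nm_castR hD, ← Complex.normSq_eq_norm_sq, Complex.normSq_apply, tc_re, tc_im]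
  have h := Real.mul_self_sqrt (disc_pos hD).le
  set q := Real.sqrt (4 * (c : ℝ) - (t : ℝ) ^ 2)
  have : (z.im : ℝ) * q / 2 * ((z.im : ℝ) * q / 2) = (z.im : ℝ) ^ 2 * (q * q) / 4 := by ring
  rw [this, h]
  ring

lemma norm_tc (hD : t ^ 2 < 4 * c) (z : Qd t c) : ‖tc z‖ = Real.sqrt (nm z) := by
  rw [nm_eq_norm_sq hD, Real.sqrt_sq (norm_nonneg _)]

@[simp] lemma nm_zero : nm (0 : Qd t c) = 0 := by simp [nm]

@[simp] lemma nm_one : nm (1 : Qd t c) = 1 := by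
  rw [nm_eq_norm, QuadraticAlgebra.norm_one]
  rfl

lemma nm_eq_zero (hD : t ^ 2 < 4 * c) {z : Qd t c} : nm z = 0 ↔ z = 0 := by
  constructor
  · intro h
    have h1 := nm_cast hD z
    rw [h] at h1
    have h2 := four_nm z
    have h3 : z.im = 0 := by
      by_contra h4
      have h5 : 0 < z.im ^ 2 := by positivity
      rw [← h1] at h2
      push_cast at h2
      nlinarith [sq_nonneg (2 * z.re + t * z.im), mul_pos (by linarith : 0 < 4 * c - t ^ 2) h5]
    have h6 : z.re = 0 := by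
      rw [h3] at h1
      have : z.re ^ 2 = 0 := by push_cast at h1; linarith
      exact pow_eq_zero_iff two_ne_zero |>.1 this
    exact QuadraticAlgebra.ext h6 h3
  · rintro rfl; exact nm_zero

lemma one_le_nm (hD : t ^ 2 < 4 * c) {z : Qd t c} : 1 ≤ nm z ↔ z ≠ 0 := by
  rw [Nat.one_le_iff_ne_zero, ne_eq, nm_eq_zero hD]

lemma nm_mul (z u : Qd t c) : nm (z * u) = nm z * nm u := by
  rw [nm_eq_norm, nm_eq_norm, nm_eq_norm, map_mul, Int.natAbs_mul]

lemma nm_pow (z : Qd t c) (n : ℕ) : nm (z ^ n) = nm z ^ n := by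
  induction n with
  | zero => simp
  | succ n ih => rw [pow_succ, nm_mul, ih, pow_succ]

lemma nm_star (z : Qd t c) : nm (star z) = nm z := by
  rw [nm_eq_norm, QuadraticAlgebra.norm_star, nm_eq_norm]

lemma nm_neg (z : Qd t c) : nm (-z) = nm z := by
  rw [nm_eq_norm, QuadraticAlgebra.norm_neg, nm_eq_norm]

lemma nm_natCast (n : ℕ) : nm (n : Qd t c) = n ^ 2 := by
  rw [nm_eq_norm, QuadraticAlgebra.norm_natCast]
  simp [Int.natAbs_pow]

lemma nm_intCast (n : ℤ) : nm (n : Qd t c) = n.natAbs ^ 2 := by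
  rw [nm_eq_norm, QuadraticAlgebra.norm_intCast, Int.natAbs_pow]
  simp

lemma star_mul_self' (hD : t ^ 2 < 4 * c) (z : Qd t c) : star z * z = ((nm z : ℕ) : Qd t c) := by
  have h := nm_cast hD z
  apply QuadraticAlgebra.ext
  · rw [QuadraticAlgebra.re_natCast]
    rw [h]
    simp only [QuadraticAlgebra.re_mul, QuadraticAlgebra.re_star, QuadraticAlgebra.im_star]
    ring
  · rw [QuadraticAlgebra.im_natCast]
    simp only [QuadraticAlgebra.im_mul, QuadraticAlgebra.re_star, QuadraticAlgebra.im_star]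
    ring

lemma mul_star_self' (hD : t ^ 2 < 4 * c) (z : Qd t c) : z * star z = ((nm z : ℕ) : Qd t c) := by
  rw [mul_comm, star_mul_self' hD]

lemma mem_ball (hD : t ^ 2 < 4 * c) {X : ℝ} {z : Qd t c} :
    z ∈ ball t c X ↔ 1 ≤ nm z ∧ (nm z : ℝ) ≤ X := by
  unfold ball
  rw [mem_filter]
  constructor
  · exact fun h => h.2
  · rintro ⟨h1, h2⟩
    refine ⟨?_, h1, h2⟩
    rw [mem_image]
    have h3 : nm z ≤ ⌊X⌋₊ := Nat.le_floor h2
    have h4 : (nm z : ℤ) ≤ ⌊X⌋₊ := by exact_mod_cast h3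
    rw [nm_cast hD] at h4
    have hc : 0 < c := by nlinarith [sq_nonneg t]
    have hcn : (c.natAbs : ℤ) = c := Int.natAbs_of_nonneg hc.le
    set F : ℤ := (⌊X⌋₊ : ℤ) with hF
    have hF0 : 0 ≤ F := by positivity
    have hB : (bx c X : ℤ) = 4 * (c + 1) * (F + 1) := by
      unfold bx
      push_cast
      have : |c| = c := abs_of_pos hc
      rw [this]
    have e1 := four_nm z
    have hD1 : 1 ≤ 4 * c - t ^ 2 := by linarith
    have h5 : z.im ^ 2 ≤ 4 * F := by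
      nlinarith [sq_nonneg (2 * z.re + t * z.im), sq_nonneg z.im]
    have h6 : z.re ^ 2 ≤ 4 * c * F := by
      have e2 : 4 * c * (z.re ^ 2 + t * z.re * z.im + c * z.im ^ 2) =
        (2 * c * z.im + t * z.re) ^ 2 + (4 * c - t ^ 2) * z.re ^ 2 := by ring
      nlinarith [sq_nonneg (2 * c * z.im + t * z.re), sq_nonneg z.re,
        mul_le_mul_of_nonneg_left h4 (by linarith : 0 ≤ 4 * c)]
    have key : ∀ x : ℤ, x ^ 2 ≤ 4 * (c + 1) * F → -(bx c X : ℤ) ≤ x ∧ x ≤ bx c X := by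
      intro x hx
      rw [hB]
      have h7 : x ^ 2 ≤ (4 * (c + 1) * (F + 1)) ^ 2 := by
        have h8 : 1 ≤ 4 * (c + 1) * (F + 1) := by nlinarith
        nlinarith
      have h9 : 0 ≤ 4 * (c + 1) * (F + 1) := by positivity
      exact abs_le.1 (abs_le_of_sq_le_sq h7 h9)
    refine ⟨(z.re, z.im), ?_, rfl⟩
    rw [mem_product, mem_Icc, mem_Icc]
    exact ⟨key z.re (by nlinarith), key z.im (by nlinarith)⟩

lemma nm_pos (hD : t ^ 2 < 4 * c) {z : Qd t c} (hz : z ≠ 0) : 0 < nm z := (one_le_nm hD).2 hz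

lemma nm_posR (hD : t ^ 2 < 4 * c) {z : Qd t c} (hz : z ≠ 0) : (0 : ℝ) < nm z := by
  exact_mod_cast nm_pos hD hz

lemma prim_ne_zero {z : Qd t c} (h : prim z) : z ≠ 0 := by
  rintro rfl
  simp [prim] at h

lemma mem_pball (hD : t ^ 2 < 4 * c) {X : ℝ} {z : Qd t c} :
    z ∈ pball t c X ↔ prim z ∧ (nm z : ℝ) ≤ X := by
  unfold pball
  rw [mem_filter, mem_ball hD]
  constructor
  · exact fun h => ⟨h.2, h.1.2⟩
  · rintro ⟨h1, h2⟩
    exact ⟨⟨(one_le_nm hD).2 (prim_ne_zero h1), h2⟩, h1⟩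

lemma mem_ann (hD : t ^ 2 < 4 * c) {A B : ℝ} {z : Qd t c} :
    z ∈ ann t c A B ↔ 1 ≤ nm z ∧ A < (nm z : ℝ) ∧ (nm z : ℝ) ≤ B := by
  unfold ann
  rw [mem_filter, mem_ball hD]
  tauto

lemma mem_win (hD : t ^ 2 < 4 * c) {Y : ℝ} {z : Qd t c} :
    z ∈ win t c Y ↔ 1 ≤ nm z ∧ Y / Real.exp 2 ≤ (nm z : ℝ) ∧ (nm z : ℝ) ≤ Real.exp 2 * Y := by
  unfold win
  rw [mem_filter, mem_ball hD]
  tauto

lemma tc_ne_zero (hD : t ^ 2 < 4 * c) {z : Qd t c} (hz : z ≠ 0) : tc z ≠ 0 := by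
  intro h
  have h1 := nm_eq_norm_sq hD z
  rw [h, norm_zero] at h1
  have h2 := nm_posR hD hz
  norm_num at h1
  exact hz ((nm_eq_zero hD).1 h1)

lemma tc_mul (hD : t ^ 2 < 4 * c) (z u : Qd t c) : tc (z * u) = tc z * tc u := by
  have h := Real.mul_self_sqrt (disc_pos hD).le
  set q := Real.sqrt (4 * (c : ℝ) - (t : ℝ) ^ 2) with hq
  apply Complex.ext
  · rw [Complex.mul_re, tc_re, tc_im, tc_re, tc_im, tc_re, ← hq]
    simp only [QuadraticAlgebra.re_mul, QuadraticAlgebra.im_mul]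
    push_cast
    have e : (z.im : ℝ) * q / 2 * ((u.im : ℝ) * q / 2) = (z.im : ℝ) * u.im * (q * q) / 4 := by ring
    rw [e, h]
    ring
  · rw [Complex.mul_im, tc_re, tc_im, tc_re, tc_im, tc_im, ← hq]
    simp only [QuadraticAlgebra.im_mul]
    push_cast
    ring

lemma tc_natCast (n : ℕ) : tc (n : Qd t c) = (n : ℂ) := by
  apply Complex.ext
  · rw [tc_re]; simp
  · rw [tc_im]; simp

lemma tc_intCast (n : ℤ) : tc (n : Qd t c) = (n : ℂ) := by
  apply Complex.ext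
  · rw [tc_re]; simp
  · rw [tc_im]; simp

lemma tc_star (z : Qd t c) : tc (star z) = (starRingEnd ℂ) (tc z) := by
  apply Complex.ext
  · rw [Complex.conj_re, tc_re, tc_re]
    simp only [QuadraticAlgebra.re_star, QuadraticAlgebra.im_star]
    push_cast
    ring
  · rw [Complex.conj_im, tc_im, tc_im]
    simp only [QuadraticAlgebra.im_star]
    push_cast
    ring

lemma tc_neg (z : Qd t c) : tc (-z) = -tc z := by
  apply Complex.ext
  · rw [Complex.neg_re, tc_re, tc_re]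
    simp only [QuadraticAlgebra.re_neg, QuadraticAlgebra.im_neg]
    push_cast
    ring
  · rw [Complex.neg_im, tc_im, tc_im]
    simp only [QuadraticAlgebra.im_neg]
    push_cast
    ring

/-! ### the characters -/

lemma unit_eq_exp (hD : t ^ 2 < 4 * c) {z : Qd t c} (hz : z ≠ 0) :
    tc z / ((‖tc z‖ : ℝ) : ℂ) = Complex.exp ((ang z : ℂ) * Complex.I) := by
  have h := Complex.norm_mul_exp_arg_mul_I (tc z)
  have h0 : ((‖tc z‖ : ℝ) : ℂ) ≠ 0 := by
    simpa using tc_ne_zero hD hz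
  unfold ang
  rw [div_eq_iff h0, mul_comm]
  exact h.symm

lemma ps_eq_exp (hD : t ^ 2 < 4 * c) {z : Qd t c} (hz : z ≠ 0) (k : ℤ) :
    ps k z = Complex.exp (((k * ang z : ℝ) : ℂ) * Complex.I) := by
  unfold ps
  rw [unit_eq_exp hD hz, ← Complex.exp_int_mul]
  congr 1
  push_cast
  ring

lemma norm_ps (hD : t ^ 2 < 4 * c) {z : Qd t c} (hz : z ≠ 0) (k : ℤ) : ‖ps k z‖ = 1 := by
  rw [ps_eq_exp hD hz]
  exact Complex.norm_exp_ofReal_mul_I _

lemma norm_ps_le (z : Qd t c) (k : ℤ) : ‖ps k z‖ ≤ 1 := by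
  unfold ps
  by_cases hz : tc z = 0
  · rw [hz]
    by_cases hk : k = 0
    · subst hk; simp
    · simp [zero_zpow k hk]
  · rw [norm_zpow, norm_div, Complex.norm_real, norm_norm, div_self (norm_ne_zero_iff.2 hz),
      one_zpow]

@[simp] lemma ps_zero (z : Qd t c) : ps 0 z = 1 := by simp [ps]

lemma ps_mul (hD : t ^ 2 < 4 * c) (k : ℤ) (z u : Qd t c) : ps k (z * u) = ps k z * ps k u := by
  unfold ps
  rw [← mul_zpow, tc_mul hD, norm_mul]
  congr 1
  push_cast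
  rw [div_mul_div_comm]

lemma ps_add (hD : t ^ 2 < 4 * c) {z : Qd t c} (hz : z ≠ 0) (k l : ℤ) :
    ps (k + l) z = ps k z * ps l z := by
  unfold ps
  rw [zpow_add₀]
  have h0 : ((‖tc z‖ : ℝ) : ℂ) ≠ 0 := by
    simpa using tc_ne_zero hD hz
  exact div_ne_zero (tc_ne_zero hD hz) h0

lemma conj_ps (hD : t ^ 2 < 4 * c) {z : Qd t c} (hz : z ≠ 0) (k : ℤ) :
    (starRingEnd ℂ) (ps k z) = ps (-k) z := by
  rw [ps_eq_exp hD hz, ps_eq_exp hD hz, ← Complex.exp_conj]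
  congr 1
  simp

lemma ps_star (hD : t ^ 2 < 4 * c) {z : Qd t c} (hz : z ≠ 0) (k : ℤ) :
    ps k (star z) = ps (-k) z := by
  rw [← conj_ps hD hz]
  unfold ps
  rw [map_zpow₀, map_div₀, Complex.conj_ofReal, tc_star, Complex.norm_conj]

lemma ps_natCast {n : ℕ} (hn : 0 < n) (k : ℤ) : ps k (n : Qd t c) = 1 := by
  unfold ps
  have hc' : (n : ℂ) ≠ 0 := by exact_mod_cast hn.ne'
  rw [tc_natCast, Complex.norm_natCast]
  push_cast
  rw [div_self hc', one_zpow]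

lemma ps_natCast_mul (hD : t ^ 2 < 4 * c) {n : ℕ} (hn : 0 < n) (k : ℤ) (z : Qd t c) :
    ps k ((n : Qd t c) * z) = ps k z := by
  rw [ps_mul hD, ps_natCast hn, one_mul]

lemma ps_neg (z : Qd t c) {k : ℤ} (hk : Even k) : ps k (-z) = ps k z := by
  unfold ps
  rw [tc_neg, norm_neg, neg_div, hk.neg_zpow]

lemma ps_neg_odd (z : Qd t c) {k : ℤ} (hk : Odd k) : ps k (-z) = -ps k z := by
  unfold ps
  rw [tc_neg, norm_neg, neg_div, hk.neg_zpow]

/-! ### divisibility and primitive vectors -/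

lemma natCast_dvd {n : ℕ} {z : Qd t c} :
    ((n : Qd t c) ∣ z) ↔ ((n : ℤ) ∣ z.re ∧ (n : ℤ) ∣ z.im) := by
  constructor
  · rintro ⟨u, rfl⟩
    simp only [QuadraticAlgebra.re_mul, QuadraticAlgebra.im_mul, QuadraticAlgebra.re_natCast,
      QuadraticAlgebra.im_natCast]
    constructor
    · exact ⟨u.re, by ring⟩
    · exact ⟨u.im, by ring⟩
  · rintro ⟨⟨a, ha⟩, ⟨b, hb⟩⟩
    refine ⟨⟨a, b⟩, ?_⟩
    apply QuadraticAlgebra.ext
    · simp only [QuadraticAlgebra.re_mul, QuadraticAlgebra.re_natCast,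
        QuadraticAlgebra.im_natCast, ha]
      ring
    · simp only [QuadraticAlgebra.im_mul, QuadraticAlgebra.re_natCast,
        QuadraticAlgebra.im_natCast, hb]
      ring

lemma prim_iff {z : Qd t c} : prim z ↔ ∀ p : ℕ, p.Prime → ¬ ((p : Qd t c) ∣ z) := by
  unfold prim
  constructor
  · intro h p hp hpz
    obtain ⟨h1, h2⟩ := natCast_dvd.1 hpz
    have h3 : (p : ℤ) ∣ (Int.gcd z.re z.im : ℤ) := Int.dvd_coe_gcd h1 h2
    rw [h] at h3
    have : p ∣ 1 := by exact_mod_cast h3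
    exact hp.one_lt.ne' (Nat.dvd_one.1 this)
  · intro h
    by_contra hne
    obtain ⟨p, hp, hpd⟩ := Nat.exists_prime_and_dvd hne
    refine h p hp (natCast_dvd.2 ⟨?_, ?_⟩)
    · exact (Int.natCast_dvd_natCast.2 hpd).trans (Int.gcd_dvd_left _ _)
    · exact (Int.natCast_dvd_natCast.2 hpd).trans (Int.gcd_dvd_right _ _)

lemma prim_of_dvd {z u : Qd t c} (h : prim u) (hz : z ∣ u) : prim z := by
  rw [prim_iff] at h ⊢
  intro p hp hpz
  exact h p hp (hpz.trans hz)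

lemma prim_neg {z : Qd t c} : prim (-z) ↔ prim z := by
  unfold prim
  simp

lemma prim_star {z : Qd t c} : prim (star z) ↔ prim z := by
  have key : ∀ z : Qd t c, prim z → prim (star z) := by
    intro z h
    rw [prim_iff] at h ⊢
    intro p hp hpz
    apply h p hp
    obtain ⟨u, hu⟩ := hpz
    refine ⟨star u, ?_⟩
    have : star (star z) = star ((p : Qd t c) * u) := by rw [hu]
    rw [star_star, star_mul', star_natCast] at this
    exact this
  exact ⟨fun h => by simpa using key _ h, key z⟩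

lemma nm_dvd {z u : Qd t c} (h : z ∣ u) : nm z ∣ nm u := by
  obtain ⟨v, rfl⟩ := h
  rw [nm_mul]
  exact dvd_mul_right _ _

/-- the ring homomorphism `z ↦ x + r y` modulo `d` -/
lemma lat_mul_eq {d : ℕ} {r : ℤ} (hr : (d : ℤ) ∣ r ^ 2 - t * r + c) (z u : Qd t c) :
    (d : ℤ) ∣ ((z * u).re + r * (z * u).im) - (z.re + r * z.im) * (u.re + r * u.im) := by
  have : ((z * u).re + r * (z * u).im) - (z.re + r * z.im) * (u.re + r * u.im) =
      -(z.im * u.im) * (r ^ 2 - t * r + c) := by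
    simp only [QuadraticAlgebra.re_mul, QuadraticAlgebra.im_mul]
    ring
  rw [this]
  exact hr.mul_left _

lemma lat_mul_left {d : ℕ} {r : ℤ} (hr : (d : ℤ) ∣ r ^ 2 - t * r + c) {z : Qd t c} (u : Qd t c)
    (hz : lat d r z) : lat d r (z * u) := by
  unfold lat at *
  have h := lat_mul_eq hr z u
  have h2 : (d : ℤ) ∣ (z.re + r * z.im) * (u.re + r * u.im) := hz.mul_right _
  have := dvd_add h h2
  simpa using this

lemma lat_mul_lat {d e : ℕ} {r : ℤ} (hr : ((d * e : ℕ) : ℤ) ∣ r ^ 2 - t * r + c) {z u : Qd t c}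
    (hz : lat d r z) (hu : lat e r u) : lat (d * e) r (z * u) := by
  unfold lat at *
  have h := lat_mul_eq hr z u
  have h2 : ((d * e : ℕ) : ℤ) ∣ (z.re + r * z.im) * (u.re + r * u.im) := by
    push_cast
    exact mul_dvd_mul hz hu
  have := dvd_add h h2
  simpa using this

lemma nm_mod_lat (hD : t ^ 2 < 4 * c) {d : ℕ} {r : ℤ} (hr : (d : ℤ) ∣ r ^ 2 - t * r + c)
    {z : Qd t c} (hz : lat d r z) : d ∣ nm z := by
  have h : (d : ℤ) ∣ (nm z : ℤ) := by
    rw [nm_cast hD]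
    unfold lat at hz
    have e : z.re ^ 2 + t * z.re * z.im + c * z.im ^ 2 =
        (z.re + r * z.im) * (z.re + (t - r) * z.im) + z.im ^ 2 * (r ^ 2 - t * r + c) := by ring
    rw [e]
    exact dvd_add (hz.mul_right _) (hr.mul_left _)
  exact_mod_cast h

/-! ### determinant -/

lemma star_mul_eq (v u : Qd t c) : star v * u = ⟨ip v u, dt v u⟩ := by
  apply QuadraticAlgebra.ext
  · simp only [QuadraticAlgebra.re_mul, QuadraticAlgebra.re_star, QuadraticAlgebra.im_star]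
    unfold ip
    ring
  · simp only [QuadraticAlgebra.im_mul, QuadraticAlgebra.re_star, QuadraticAlgebra.im_star]
    unfold dt
    ring

lemma ip_dt (hD : t ^ 2 < 4 * c) (v u : Qd t c) :
    (nm v : ℤ) * nm u = ip v u ^ 2 + t * ip v u * dt v u + c * dt v u ^ 2 := by
  rw [nm_cast hD, nm_cast hD]
  unfold ip dt
  ring

lemma nm_add (hD : t ^ 2 < 4 * c) (v u : Qd t c) :
    (nm (v + u) : ℤ) = nm v + 2 * ip v u + t * dt v u + nm u := by
  rw [nm_cast hD, nm_cast hD, nm_cast hD]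
  simp only [QuadraticAlgebra.re_add, QuadraticAlgebra.im_add]
  unfold ip dt
  ring

lemma NN_eq (hD : t ^ 2 < 4 * c) {e : Qd t c × Qd t c} (h : dt e.1 e.2 = 1) :
    (NN e : ℤ) = ip e.1 e.2 ^ 2 + t * ip e.1 e.2 + c := by
  unfold NN
  push_cast
  rw [ip_dt hD, h]
  ring

/-! ### the Liouville function -/

lemma lam_mul {m n : ℕ} (hm : m ≠ 0) (hn : n ≠ 0) : lam (m * n) = lam m * lam n := by
  unfold lam
  rw [ArithmeticFunction.cardFactors_mul hm hn, pow_add]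

lemma lam_prime {p : ℕ} (hp : p.Prime) : lam p = -1 := by
  unfold lam
  rw [ArithmeticFunction.cardFactors_apply_prime hp, pow_one]

lemma lam_eq (n : ℕ) : lam n = 1 ∨ lam n = -1 := by
  unfold lam
  exact neg_one_pow_eq_or ℤ _

lemma gl_eq (z : Qd t c) : gl z = 1 ∨ gl z = -1 := lam_eq _

lemma gl_mul (hD : t ^ 2 < 4 * c) {z u : Qd t c} (hz : z ≠ 0) (hu : u ≠ 0) :
    gl (z * u) = gl z * gl u := by
  unfold gl
  rw [nm_mul, lam_mul (nm_pos hD hz).ne' (nm_pos hD hu).ne']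

lemma gl_neg (z : Qd t c) : gl (-z) = gl z := by
  unfold gl
  rw [nm_neg]

lemma gl_star (z : Qd t c) : gl (star z) = gl z := by
  unfold gl
  rw [nm_star]

lemma lam_sq_mul {m n : ℕ} (hm : m ≠ 0) (hn : n ≠ 0) : lam (m ^ 2 * n) = lam n := by
  rw [lam_mul (pow_ne_zero 2 hm) hn, pow_two, lam_mul hm hm]
  rcases lam_eq m with h | h <;> rw [h] <;> norm_num

lemma gl_natCast_mul {n : ℕ} (hn : 0 < n) (hD : t ^ 2 < 4 * c) {z : Qd t c} (hz : z ≠ 0) :
    gl ((n : Qd t c) * z) = gl z := by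
  unfold gl
  rw [nm_mul, nm_natCast, lam_sq_mul hn.ne' (nm_pos hD hz).ne']

/-- `G(k) = 0` for odd `k` -/
lemma GG_odd (hD : t ^ 2 < 4 * c) (Y : ℝ) {k : ℤ} (hk : Odd k) : GG t c Y k = 0 := by
  unfold GG DPG
  have h : ∑ z ∈ pball t c (Real.exp 1 * Y), (gl z : ℂ) * (bg Y z : ℂ) * ps k z =
      ∑ z ∈ pball t c (Real.exp 1 * Y), -((gl z : ℂ) * (bg Y z : ℂ) * ps k z) := by
    refine sum_bij' (fun z _ => -z) (fun z _ => -z) ?_ ?_ ?_ ?_ ?_
    · intro z hz
      rw [mem_pball hD] at hz ⊢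
      rw [prim_neg, nm_neg]
      exact hz
    · intro z hz
      rw [mem_pball hD] at hz ⊢
      rw [prim_neg, nm_neg]
      exact hz
    · intro z _; simp
    · intro z _; simp
    · intro z _
      rw [gl_neg, ps_neg_odd z hk]
      unfold bg
      rw [nm_neg]
      ring
  rw [sum_neg_distrib] at h
  have h2 : (2 : ℂ) * ∑ z ∈ pball t c (Real.exp 1 * Y), (gl z : ℂ) * (bg Y z : ℂ) * ps k z = 0 := by
    linear_combination h
  simpa using h2

end Pool.Agent.W78.GA
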