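import Mathlib
import Pool.Agent.H376R2.MR.Defs

/-!
Project GA (helper78): the Matomaki-Radziwill method for the angles of the elements of an imaginary
quadratic order, and the parity of the number of prime factors of `n^2 + t n + c`, `t^2 < 4 c`.
Definitions and statements.

`lam`, `w`, `FK`, `Fj`, `FR`, `LL`, `aa` are those of `H376R2/MR/Defs`.
-/

set_option autoImplicit false

namespace Pool.Agent.W78.GA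

open Finset Filter
open Pool.Agent.H376R2.MR

/-- the quadratic order `ℤ[ω]`, `ω^2 = t ω - c`; we always assume `t^2 < 4 c` -/
abbrev Qd (t c : ℤ) := QuadraticAlgebra ℤ (-c) t

variable {t c : ℤ}

/-- the norm `x^2 + t x y + c y^2` of `x + y ω` as a natural number -/
def nm (z : Qd t c) : ℕ := (z.re ^ 2 + t * z.re * z.im + c * z.im ^ 2).natAbs

/-- primitive elements (coordinates coprime) -/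
def prim (z : Qd t c) : Prop := Int.gcd z.re z.im = 1

instance : DecidablePred (prim (t := t) (c := c)) :=
  fun z => inferInstanceAs (Decidable (Int.gcd z.re z.im = 1))

/-- bound for the coordinates of the elements of norm at most `X` -/
noncomputable def bx (c : ℤ) (X : ℝ) : ℕ := 4 * (c.natAbs + 1) * (⌊X⌋₊ + 1)

/-- the elements with `1 ≤ nm z ≤ X` -/
noncomputable def ball (t c : ℤ) (X : ℝ) : Finset (Qd t c) :=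
  (((Icc (-(bx c X : ℤ)) (bx c X)) ×ˢ (Icc (-(bx c X : ℤ)) (bx c X))).image
    (fun p => (⟨p.1, p.2⟩ : Qd t c))).filter (fun z => 1 ≤ nm z ∧ (nm z : ℝ) ≤ X)

/-- primitive elements with `nm z ≤ X` -/
noncomputable def pball (t c : ℤ) (X : ℝ) : Finset (Qd t c) := (ball t c X).filter prim

/-- the annulus `A < nm z ≤ B` -/
noncomputable def ann (t c : ℤ) (A B : ℝ) : Finset (Qd t c) :=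
  (ball t c B).filter (fun z => A < (nm z : ℝ))

/-- the window `Y/e^2 ≤ nm z ≤ e^2 Y` -/
noncomputable def win (t c : ℤ) (Y : ℝ) : Finset (Qd t c) :=
  (ball t c (Real.exp 2 * Y)).filter (fun z => Y / Real.exp 2 ≤ (nm z : ℝ))

/-- the embedding into `ℂ`, `ω ↦ (t + √(t^2-4c))/2` -/
noncomputable def tc (z : Qd t c) : ℂ :=
  ⟨(z.re : ℝ) + t * z.im / 2, (z.im : ℝ) * Real.sqrt (4 * c - t ^ 2) / 2⟩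

/-- the angle of `z` -/
noncomputable def ang (z : Qd t c) : ℝ := Complex.arg (tc z)

/-- the angular character `(z/|z|)^k` -/
noncomputable def ps (k : ℤ) (z : Qd t c) : ℂ := (tc z / ((‖tc z‖ : ℝ) : ℂ)) ^ k

/-- the angular polynomial `∑_{z ∈ s} f_z (z/|z|)^k` -/
noncomputable def DPG (s : Finset (Qd t c)) (f : Qd t c → ℂ) (k : ℤ) : ℂ := ∑ z ∈ s, f z * ps k z

/-- window coefficient `w(log (N z / Y)) / N z`, `w` the tent -/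
noncomputable def bg (Y : ℝ) (z : Qd t c) : ℝ := w (Real.log (nm z) - Real.log Y) / nm z

/-- the Liouville function of the norm -/
def gl (z : Qd t c) : ℤ := lam (nm z)

/-- `G_Y(k) = ∑_{z primitive} λ(N z) w(log(N z/Y))/N z (z/|z|)^k` -/
noncomputable def GG (t c : ℤ) (Y : ℝ) (k : ℤ) : ℂ :=
  DPG (pball t c (Real.exp 1 * Y)) (fun z => (gl z : ℂ) * (bg Y z : ℂ)) k

/-- determinant of two vectors -/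
def dt (v u : Qd t c) : ℤ := v.re * u.im - v.im * u.re

/-- first coordinate of `v̄ u`; `v̄ u = ip v u + dt v u ω` -/
def ip (v u : Qd t c) : ℤ := v.re * u.re + t * v.im * u.re + c * v.im * u.im

/-- the lattice `d ∣ x + r y`; an ideal of norm `d` if `d ∣ r^2 - t r + c` -/
def lat (d : ℕ) (r : ℤ) (z : Qd t c) : Prop := (d : ℤ) ∣ z.re + r * z.im

instance (d : ℕ) (r : ℤ) : DecidablePred (lat (t := t) (c := c) d r) :=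
  fun z => inferInstanceAs (Decidable ((d : ℤ) ∣ z.re + r * z.im))

/-- area of `x^2 + t x y + c y^2 ≤ 1` -/
noncomputable def kap (t c : ℤ) : ℝ := 2 * Real.pi / Real.sqrt (4 * c - t ^ 2)

open scoped Classical in
/-- pairs of (angularly) consecutive primitive vectors of norm at most `X` -/
noncomputable def edge (t c : ℤ) (X : ℝ) : Finset (Qd t c × Qd t c) :=
  (pball t c X ×ˢ pball t c X).filter (fun e => dt e.1 e.2 = 1 ∧ X < (nm (e.1 + e.2) : ℝ))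

open scoped Classical in
/-- the edges with a sign change of the Liouville function of the norm -/
noncomputable def sedge (t c : ℤ) (X : ℝ) : Finset (Qd t c × Qd t c) :=
  (edge t c X).filter (fun e => lam (nm e.1) ≠ lam (nm e.2))

open scoped Classical in
/-- all pairs of determinant `1` of vectors of norm at most `X` -/
noncomputable def dedge (t c : ℤ) (X : ℝ) : Finset (Qd t c × Qd t c) :=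
  (pball t c X ×ˢ pball t c X).filter (fun e => dt e.1 e.2 = 1)

/-- the product of the two norms; equal to `n^2 + t n + c`, `n = ip v u`, if `dt v u = 1` -/
def NN (e : Qd t c × Qd t c) : ℕ := nm e.1 * nm e.2

/-! ### The elements of norm `p q` used in place of prime elements -/

/-- `d` is composed of the primes in the two given sets -/
def Sm (Ap Bp : ℕ → Prop) (d : ℕ) : Prop := d ≠ 0 ∧ ∀ p : ℕ, p.Prime → p ∣ d → Ap p ∨ Bp p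

open scoped Classical in
/-- the `m` in the set `M` with `v/H ≤ log m < (v+1)/H` -/
noncomputable def cellM (M : ℕ → Prop) (H v : ℕ) : Finset ℕ :=
  (range (⌊Real.exp (((v : ℝ) + 1) / H)⌋₊ + 1)).filter
    (fun m => M m ∧ (v : ℝ) / H ≤ Real.log m ∧ Real.log m < ((v : ℝ) + 1) / H)

/-- `∑_{m ∈ cell} 1/m` -/
noncomputable def mE (M : ℕ → Prop) (H v : ℕ) : ℝ := ∑ m ∈ cellM M H v, 1 / (m : ℝ)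

/-- `- ∑_{m ∈ cell} (ϖ_m/|ϖ_m|)^k / m` for even `k` -/
noncomputable def PE (M : ℕ → Prop) (ϖ : ℕ → Qd t c) (H v : ℕ) (k : ℤ) : ℂ :=
  if Even k then -∑ m ∈ cellM M H v, ps k (ϖ m) / (m : ℂ) else 0

/-- A system of elements `ϖ m` of norm `m = p q`, `p` in `Ap`, `q` in `Bp`. For every prime `p` of
`Ap` or `Bp` one of the two prime ideals above `p` is chosen, `{z : p ∣ x + ρ(p) y}`, and `ϖ m` is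
in the chosen ideals only. -/
structure Ele (t c : ℤ) (Ap Bp M : ℕ → Prop) (E : ℕ) (ρ : ℕ → ℤ) (ϖ : ℕ → Qd t c) : Prop where
  pos : 1 ≤ E
  prA : ∀ p, Ap p → p.Prime ∧ 5 ≤ p ∧ ¬ (p : ℤ) ∣ t ^ 2 - 4 * c
  prB : ∀ p, Bp p → p.Prime ∧ 5 ≤ p ∧ ¬ (p : ℤ) ∣ t ^ 2 - 4 * c
  disj : ∀ p, Ap p → ¬ Bp p
  fac : ∀ m, M m → ∃ p q : ℕ, Ap p ∧ Bp q ∧ m = p * q ∧ p ≤ q ^ E ∧ q ≤ p ^ E
  root : ∀ d, Sm Ap Bp d → (d : ℤ) ∣ ρ d ^ 2 - t * ρ d + c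
  compat : ∀ d e, Sm Ap Bp e → d ∣ e → (d : ℤ) ∣ ρ e - ρ d
  elt : ∀ m, M m → nm (ϖ m) = m ∧ lat m (ρ m) (ϖ m)
  rich : ∃ c₀ : ℝ, 0 < c₀ ∧ ∃ C : ℝ, ∀ H v₀ v₁ : ℕ, 1 ≤ H → H ≤ v₀ → v₀ ≤ v₁ →
    c₀ * Real.log ((v₁ : ℝ) / v₀) - C ≤ ∑ v ∈ Ico v₀ v₁, mE M H v

/-! ### The abstract machine, second version -/

/-- input of the abstract Matomaki-Radziwill machine, second version: compared with `GM.Mach` the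
cell bound is only required on average over cells (`cell_avg`, `P_le`), and the moments may be as
large as `(ℓ!)^8`. -/
structure MachB (P : ℕ → ℕ → ℤ → ℂ) (m : ℕ → ℕ → ℝ) (G : ℝ → ℤ → ℂ) : Prop where
  m_nonneg : ∀ H v, 0 ≤ m H v
  P_le : ∀ H v k, ‖P H v k‖ ≤ m H v
  rich : ∃ c : ℝ, 0 < c ∧ ∃ C : ℝ, ∀ H v₀ v₁ : ℕ, 1 ≤ H → H ≤ v₀ → v₀ ≤ v₁ →
    c * Real.log ((v₁ : ℝ) / v₀) - C ≤ ∑ v ∈ Ico v₀ v₁, m H v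
  cell_avg : ∃ c' : ℝ, 0 < c' ∧ c' ≤ 1 ∧ ∃ Λ : ℕ, ∀ M H : ℕ, 1 ≤ H → ∃ V₀ : ℕ, ∀ v₀ v₁ : ℕ,
    V₀ ≤ v₀ → Λ * v₀ ≤ v₁ → ∀ k : ℤ, k ≠ 0 → |(k : ℝ)| ≤ Real.exp (M * (v₀ : ℝ) / H) →
    ∑ v ∈ Ico v₀ v₁, ‖P H v k‖ ≤ (1 - c') * ∑ v ∈ Ico v₀ v₁, m H v
  dec : ∃ C : ℝ, 0 < C ∧ ∃ β : ℝ, 0 < β ∧ ∃ Z₀ : ℝ, ∀ H v₀ v₁ : ℕ, 1 ≤ H → H ≤ v₀ →
    1 ≤ ∑ v ∈ Ico v₀ v₁, m H v → ∀ Y : ℝ, Real.exp (4 * (v₁ : ℝ) / H) ≤ Y → ∃ E : ℤ → ℂ,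
      (∀ k : ℤ, G Y k = -(1 / ((∑ v ∈ Ico v₀ v₁, m H v : ℝ) : ℂ)) *
        ∑ v ∈ Ico v₀ v₁, P H v k * G (Y * Real.exp (-((v : ℝ) / H))) k + E k) ∧
      (∀ K : ℕ, 1 ≤ K → (K : ℝ) ≤ Y → ∑ k ∈ FK K, ‖E k‖ ^ 2 ≤
        C * (1 / (∑ v ∈ Ico v₀ v₁, m H v) + 1 / (H : ℝ) ^ 2)) ∧
      (Z₀ ≤ Y → ∀ U : Finset ℤ, (∀ k ∈ U, |(k : ℝ)| ≤ Y ^ (4 / 3 : ℝ)) → (U.card : ℝ) ≤ Y ^ β →
        ∑ k ∈ U, ‖E k‖ ^ 2 ≤ C * (1 / (∑ v ∈ Ico v₀ v₁, m H v) + 1 / (H : ℝ) ^ 2))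
  mom_zero : ∃ C : ℝ, 0 < C ∧ ∀ (K : ℕ) (Z : ℝ), 3 ≤ Z → 1 ≤ K →
    ∑ k ∈ FK K, ‖G Z k‖ ^ 2 ≤ C * (1 + (K : ℝ) / Z)
  momP : ∃ C : ℝ, 1 ≤ C ∧ ∀ H r ℓ K : ℕ, 1 ≤ H → 1 ≤ K → (K : ℝ) ≤ Real.exp ((r : ℝ) * ℓ / H) →
    ∑ k ∈ FK K, ‖P H r k‖ ^ (2 * ℓ) ≤ C ^ (ℓ + 1) * (ℓ.factorial : ℝ) ^ 8
  mom : ∃ C : ℝ, 1 ≤ C ∧ ∀ (H r ℓ K : ℕ) (Z : ℝ), 1 ≤ H → 3 ≤ Z → 1 ≤ K →
    (K : ℝ) ≤ Z * Real.exp ((r : ℝ) * ℓ / H) →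
    ∑ k ∈ FK K, ‖P H r k ^ ℓ * G Z k‖ ^ 2 ≤ C ^ (ℓ + 1) * (ℓ.factorial : ℝ) ^ 8
  sparse : ∃ C : ℝ, 0 < C ∧ ∃ β : ℝ, 0 < β ∧ ∃ Z₀ : ℝ, ∀ Z : ℝ, Z₀ ≤ Z → ∀ U : Finset ℤ,
    (∀ k ∈ U, |(k : ℝ)| ≤ Z ^ (4 / 3 : ℝ)) → (U.card : ℝ) ≤ Z ^ β → ∑ k ∈ U, ‖G Z k‖ ^ 2 ≤ C

/-- smallness at the level `(H, v₀, v₁)` with exponent `α` -/
def SmA (P : ℕ → ℕ → ℤ → ℂ) (H v₀ v₁ : ℕ) (α : ℝ) (k : ℤ) : Prop :=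
  ∀ v ∈ Ico v₀ v₁, ‖P H v k‖ ≤ Real.exp (-(α * v / H))

/-- smallness at the level number `j` -/
def SmjA (P : ℕ → ℕ → ℤ → ℂ) (L : ℕ) (α : ℝ) (j : ℕ) (k : ℤ) : Prop :=
  SmA P (LL L j) (LL L j ^ 2) (LL L j ^ 3) (aa α j) k

/-- LEVA -/
def S_LEVA : Prop := ∀ (P : ℕ → ℕ → ℤ → ℂ) (m : ℕ → ℕ → ℝ) (G : ℝ → ℤ → ℂ), MachB P m G →
  ∃ C : ℝ, 0 < C ∧ ∀ α : ℝ, 0 < α → α ≤ 1 → ∃ L₀ : ℕ, ∀ L : ℕ, L₀ ≤ L →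
    ∀ (Y : ℝ) (K : ℕ), Real.exp (4 * (L : ℝ) ^ 2) ≤ Y → 1 ≤ K → (K : ℝ) * Real.exp ((L : ℝ) ^ 2) ≤ Y →
    (open scoped Classical in
      ∑ k ∈ (FK K).filter (fun k => SmjA P L α 0 k), ‖G Y k‖ ^ 2) ≤ C / Real.log L

/-- LEVB -/
def S_LEVB : Prop := ∀ (P : ℕ → ℕ → ℤ → ℂ) (m : ℕ → ℕ → ℝ) (G : ℝ → ℤ → ℂ), MachB P m G →
  ∃ C : ℝ, 0 < C ∧ ∀ α : ℝ, 0 < α → α ≤ 1 → ∃ L₀ : ℕ, ∀ L : ℕ, L₀ ≤ L →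
    ∀ (j : ℕ) (Y : ℝ) (K : ℕ), Real.exp (4 * (LL L (j + 1) : ℝ) ^ 2) ≤ Y → 1 ≤ K → (K : ℝ) ≤ Y →
    (open scoped Classical in
      ∑ k ∈ (FK K).filter (fun k => SmjA P L α (j + 1) k ∧ ¬ SmjA P L α j k), ‖G Y k‖ ^ 2) ≤
      C / (3 ^ (j + 1) * Real.log L)

/-- CNT -/
def S_CNT : Prop := ∀ (P : ℕ → ℕ → ℤ → ℂ) (m : ℕ → ℕ → ℝ) (G : ℝ → ℤ → ℂ), MachB P m G →
  ∀ α : ℝ, 0 < α → α ≤ 1 → ∃ L₀ : ℕ, ∀ L : ℕ, L₀ ≤ L → ∃ Y₀ : ℝ, ∀ Y : ℝ, Y₀ ≤ Y →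
    ∀ j K : ℕ, (LL L j : ℝ) ^ 4 ≤ Real.log Y → Real.log Y < (LL L (j + 1) : ℝ) ^ 4 → (K : ℝ) ≤ Y →
    (open scoped Classical in
      (((FK K).filter (fun k => ¬ SmjA P L α j k)).card : ℝ)) ≤ Y ^ (4 * α)

/-- TPART -/
def S_TPART : Prop := S_LEVA → S_LEVB → S_CNT →
  ∀ (P : ℕ → ℕ → ℤ → ℂ) (m : ℕ → ℕ → ℝ) (G : ℝ → ℤ → ℂ), MachB P m G →
    ∀ α η : ℝ, 0 < α → 0 < η → ∃ h : ℝ, 1 ≤ h ∧ ∃ Y₀ : ℝ, ∀ Y : ℝ, Y₀ ≤ Y →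
    ∃ U : Finset ℤ, (U.card : ℝ) ≤ Y ^ α ∧ ∑ k ∈ FK ⌊Y / h⌋₊ \ U, ‖G Y k‖ ^ 2 ≤ η

/-- UPART -/
def S_UPART : Prop := ∀ (P : ℕ → ℕ → ℤ → ℂ) (m : ℕ → ℕ → ℝ) (G : ℝ → ℤ → ℂ), MachB P m G →
  ∀ η : ℝ, 0 < η → ∃ α : ℝ, 0 < α ∧ ∃ Y₀ : ℝ, ∀ Y : ℝ, Y₀ ≤ Y → ∀ U : Finset ℤ,
    (∀ k ∈ U, k ≠ 0 ∧ |(k : ℝ)| ≤ Y) → (U.card : ℝ) ≤ Y ^ α → ∑ k ∈ U, ‖G Y k‖ ^ 2 ≤ η

/-- the conclusion of the machine -/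
def S_MACH : Prop := ∀ (P : ℕ → ℕ → ℤ → ℂ) (m : ℕ → ℕ → ℝ) (G : ℝ → ℤ → ℂ), MachB P m G →
  ∀ η : ℝ, 0 < η → ∃ h : ℝ, 1 ≤ h ∧ ∃ Y₀ : ℝ, ∀ Y : ℝ, Y₀ ≤ Y →
    ∑ k ∈ (FK ⌊Y / h⌋₊).erase 0, ‖G Y k‖ ^ 2 ≤ η

/-! ### Statements, part 2: the quadratic order -/

/-- LAT: lattice points -/
def S_LAT (t c : ℤ) : Prop := ∃ C : ℝ, 0 < C ∧
  (∀ (X : ℝ) (d : ℕ) (r : ℤ), 1 ≤ X → 1 ≤ d →
    |(((ball t c X).filter (lat d r)).card : ℝ) - kap t c * X / d| ≤ C * Real.sqrt X) ∧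
  (∀ (A B : ℝ) (d : ℕ) (r : ℤ), 1 ≤ A → A ≤ B → 1 ≤ d →
    |∑ z ∈ (ann t c A B).filter (lat d r), 1 / (nm z : ℝ) - kap t c / d * Real.log (B / A)| ≤
      C / Real.sqrt A)

/-- RED: reduction theory. The ideal `{z : d ∣ x + r y}` of norm `d` is `z₁ / A` times one of
finitely many ideals `{w : A ∣ x + s y}`. -/
def S_RED (t c : ℤ) : Prop := ∃ B : ℕ, ∀ (d : ℕ) (r : ℤ), 1 ≤ d → (d : ℤ) ∣ r ^ 2 - t * r + c →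
  ∃ (A : ℕ) (s : ℤ) (z₁ : Qd t c), 1 ≤ A ∧ A ≤ B ∧ 0 ≤ s ∧ s < A ∧ (A : ℤ) ∣ s ^ 2 - t * s + c ∧
    nm z₁ = d * A ∧ lat d r z₁ ∧
    (∀ w : Qd t c, lat A s w → ∃ z : Qd t c, lat d r z ∧ (A : Qd t c) * z = z₁ * w) ∧
    (∀ z : Qd t c, lat d r z → ∃ w : Qd t c, lat A s w ∧ (A : Qd t c) * z = z₁ * w)

/-- LATI: lattice points of ideals, uniformly -/
def S_LATI (t c : ℤ) : Prop := ∃ C : ℝ, 0 < C ∧ ∀ (d : ℕ) (r : ℤ), 1 ≤ d →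
  (d : ℤ) ∣ r ^ 2 - t * r + c →
  (∀ X : ℝ, (d : ℝ) ≤ X →
    |(((ball t c X).filter (lat d r)).card : ℝ) - kap t c * X / d| ≤ C * Real.sqrt (X / d)) ∧
  (∀ X : ℝ, 1 ≤ X → (((ball t c X).filter (lat d r)).card : ℝ) ≤ C * X / d) ∧
  (∀ A B : ℝ, 0 < A → A ≤ B →
    ∑ z ∈ (ann t c A B).filter (lat d r), 1 / (nm z : ℝ) ≤ C / d * (1 + Real.log (B / A)))

/-- LS: large sieve for the angles of primitive elements -/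
def S_LS (t c : ℤ) : Prop := ∃ C : ℝ, 0 < C ∧ ∀ (X : ℝ) (K : ℕ) (s : Finset (Qd t c))
  (f : Qd t c → ℂ), 1 ≤ X → 1 ≤ K → (∀ z ∈ s, prim z ∧ (nm z : ℝ) ≤ X) →
  ∑ k ∈ FK K, ‖DPG s f k‖ ^ 2 ≤ C * (K + X) * ∑ z ∈ s, ‖f z‖ ^ 2

/-- ANG1: angular sums over lattices, van der Corput part -/
def S_ANG1 (t c : ℤ) : Prop := ∀ (d : ℕ) (r : ℤ) (M : ℕ), 1 ≤ d → ∃ η : ℝ, 0 < η ∧
  ∃ C : ℝ, 0 < C ∧ ∀ (X : ℝ) (k : ℤ), 1 ≤ X → k ≠ 0 → |(k : ℝ)| ≤ X ^ M →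
    ‖∑ z ∈ (ball t c X).filter (lat d r), ps k z‖ ≤ C * (X ^ (1 - η) + X / |(k : ℝ)|)

/-- ANG2: angular sums over lattices, small frequencies -/
def S_ANG2 (t c : ℤ) : Prop := ∀ (d : ℕ) (r : ℤ), 1 ≤ d → ∃ C : ℝ, 0 < C ∧ ∀ (X : ℝ) (k : ℤ),
  1 ≤ X → k ≠ 0 → ‖∑ z ∈ (ball t c X).filter (lat d r), ps k z‖ ≤ C * |(k : ℝ)| * Real.sqrt X

/-- ANG: angular sums over lattices -/
def S_ANG (t c : ℤ) : Prop := ∀ (d : ℕ) (r : ℤ) (M : ℕ), 1 ≤ d → ∃ η : ℝ, 0 < η ∧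
  ∃ C : ℝ, 0 < C ∧ ∀ (X : ℝ) (k : ℤ), 1 ≤ X → k ≠ 0 → |(k : ℝ)| ≤ X ^ M →
    ‖∑ z ∈ (ball t c X).filter (lat d r), ps k z‖ ≤ C * X ^ (1 - η)

/-- ANGI: angular sums over ideals, uniformly in the ideal -/
def S_ANGI (t c : ℤ) : Prop := ∀ M : ℕ, ∃ η : ℝ, 0 < η ∧ η ≤ 1 ∧ ∃ C : ℝ, 0 < C ∧
  ∀ (X : ℝ) (k : ℤ) (d : ℕ) (r : ℤ), 1 ≤ d → (d : ℤ) ∣ r ^ 2 - t * r + c → (d : ℝ) ≤ X → k ≠ 0 →
    |(k : ℝ)| ≤ (X / d) ^ M →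
    ‖∑ z ∈ (ball t c X).filter (lat d r), ps k z‖ ≤ C * (X / d) ^ (1 - η)

/-- SPARSE: large sieve for sparse sets of frequencies -/
def S_SPARSE (t c : ℤ) : Prop := ∃ α : ℝ, 0 < α ∧ ∃ C : ℝ, 0 < C ∧ ∃ Z₀ : ℝ, ∀ Z : ℝ, Z₀ ≤ Z →
  ∀ U : Finset ℤ, (∀ k ∈ U, |(k : ℝ)| ≤ Z ^ (4 / 3 : ℝ)) → (U.card : ℝ) ≤ Z ^ α →
  ∀ (s : Finset (Qd t c)) (f : Qd t c → ℂ),
    (∀ z ∈ s, 1 ≤ nm z ∧ (nm z : ℝ) ≤ Real.exp 2 * Z) →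
    ∑ k ∈ U, ‖DPG s f k‖ ^ 2 ≤ C * Z * ∑ z ∈ s, ‖f z‖ ^ 2

/-- ELE: existence of a system of elements -/
def S_ELE (t c : ℤ) : Prop := ∃ (Ap Bp M : ℕ → Prop) (E : ℕ) (ρ : ℕ → ℤ) (ϖ : ℕ → Qd t c),
  Ele t c Ap Bp M E ρ ϖ

/-- TK: Turan-Kubilius -/
def S_TK (t c : ℤ) : Prop := ∀ (Ap Bp M : ℕ → Prop) (E : ℕ) (ρ : ℕ → ℤ) (ϖ : ℕ → Qd t c),
  Ele t c Ap Bp M E ρ ϖ → ∃ C : ℝ, 0 < C ∧ ∀ (S : Finset ℕ) (R Y : ℝ),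
    (∀ m ∈ S, M m ∧ (m : ℝ) ≤ R) → 1 ≤ ∑ m ∈ S, 1 / (m : ℝ) → R ^ 4 ≤ Y →
    (open scoped Classical in
      ∑ z ∈ win t c Y, (((S.filter (fun m => ϖ m ∣ z)).card : ℝ) - ∑ m ∈ S, 1 / (m : ℝ)) ^ 2 /
        (nm z : ℝ)) ≤ C * ∑ m ∈ S, 1 / (m : ℝ)

/-- DEC: the decomposition -/
def S_DEC (t c : ℤ) : Prop := ∀ (Ap Bp M : ℕ → Prop) (E : ℕ) (ρ : ℕ → ℤ) (ϖ : ℕ → Qd t c),
  Ele t c Ap Bp M E ρ ϖ → ∃ C : ℝ, 0 < C ∧ ∀ H v₀ v₁ : ℕ, 1 ≤ H → H ≤ v₀ →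
    1 ≤ ∑ v ∈ Ico v₀ v₁, mE M H v → ∀ Y : ℝ, Real.exp (4 * (v₁ : ℝ) / H) ≤ Y →
    ∃ (s : Finset (Qd t c)) (f : Qd t c → ℂ), (∀ z ∈ s, prim z ∧ (nm z : ℝ) ≤ Real.exp 2 * Y) ∧
      (∀ k : ℤ, Even k → GG t c Y k = -(1 / ((∑ v ∈ Ico v₀ v₁, mE M H v : ℝ) : ℂ)) *
        ∑ v ∈ Ico v₀ v₁, PE M ϖ H v k * GG t c (Y * Real.exp (-((v : ℝ) / H))) k + DPG s f k) ∧
      Y * ∑ z ∈ s, ‖f z‖ ^ 2 ≤ C * (1 / (∑ v ∈ Ico v₀ v₁, mE M H v) + 1 / (H : ℝ) ^ 2)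

/-- MOM0: the mean values of `G` -/
def S_MOM0 (t c : ℤ) : Prop := ∃ C : ℝ, 0 < C ∧ ∀ (K : ℕ) (Z : ℝ), 3 ≤ Z → 1 ≤ K →
    ∑ k ∈ FK K, ‖GG t c Z k‖ ^ 2 ≤ C * (1 + (K : ℝ) / Z)

/-- MOMP: the moments of `P` -/
def S_MOMP (t c : ℤ) : Prop := ∀ (Ap Bp M : ℕ → Prop) (E : ℕ) (ρ : ℕ → ℤ) (ϖ : ℕ → Qd t c),
  Ele t c Ap Bp M E ρ ϖ → ∃ C : ℝ, 1 ≤ C ∧ ∀ H r ℓ K : ℕ, 1 ≤ H → 1 ≤ K →
    (K : ℝ) ≤ Real.exp ((r : ℝ) * ℓ / H) →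
    ∑ k ∈ FK K, ‖PE M ϖ H r k‖ ^ (2 * ℓ) ≤ C ^ (ℓ + 1) * (ℓ.factorial : ℝ) ^ 8

/-- MOM: mixed moments -/
def S_MOM (t c : ℤ) : Prop := ∀ (Ap Bp M : ℕ → Prop) (E : ℕ) (ρ : ℕ → ℤ) (ϖ : ℕ → Qd t c),
  Ele t c Ap Bp M E ρ ϖ → ∃ C : ℝ, 1 ≤ C ∧ ∀ (H r ℓ K : ℕ) (Z : ℝ), 1 ≤ H → 3 ≤ Z → 1 ≤ K →
    (K : ℝ) ≤ Z * Real.exp ((r : ℝ) * ℓ / H) →
    ∑ k ∈ FK K, ‖PE M ϖ H r k ^ ℓ * GG t c Z k‖ ^ 2 ≤ C ^ (ℓ + 1) * (ℓ.factorial : ℝ) ^ 8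

/-- the split primes used in the sieve -/
def Sp (t c : ℤ) (p : ℕ) : Prop :=
  p.Prime ∧ 5 ≤ p ∧ ¬ (p : ℤ) ∣ t ^ 2 - 4 * c ∧ ∃ r : ℤ, (p : ℤ) ∣ r ^ 2 - t * r + c

/-- density of the elements with norm divisible by the squarefree number `d` of split primes -/
noncomputable def gd (d : ℕ) : ℝ := ∏ p ∈ d.primeFactors, (2 * (p : ℝ) - 1) / (p : ℝ) ^ 2

/-- SELB: Selberg weights of dimension one for the norms -/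
def S_SELB (t c : ℤ) : Prop := ∃ C : ℝ, 0 < C ∧ ∀ D : ℕ, 2 ≤ D → ∃ l : ℕ → ℝ, l 1 = 1 ∧
  (∀ d, |l d| ≤ 1) ∧ (∀ d, l d ≠ 0 → 1 ≤ d ∧ d ≤ D ∧ Squarefree d ∧ ∀ p : ℕ, p.Prime → p ∣ d →
    Sp t c p) ∧
  0 ≤ ∑ d ∈ Icc 1 D, ∑ e ∈ Icc 1 D, l d * l e * gd (Nat.lcm d e) ∧
  ∑ d ∈ Icc 1 D, ∑ e ∈ Icc 1 D, l d * l e * gd (Nat.lcm d e) ≤ C / Real.log D

/-- SELE: the sieve bound for the elements `ϖ m` in a cell with the phases `e^{i r k θ}` -/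
def S_SELE (t c : ℤ) : Prop := ∀ (Ap Bp M : ℕ → Prop) (E : ℕ) (ρ : ℕ → ℤ) (ϖ : ℕ → Qd t c),
  Ele t c Ap Bp M E ρ ϖ → ∃ C : ℝ, 0 < C ∧ ∀ M' H R : ℕ, 1 ≤ H → 1 ≤ R → ∃ v₀ : ℕ, ∀ v : ℕ,
    v₀ ≤ v → ∀ k : ℤ, k ≠ 0 → |(k : ℝ)| ≤ Real.exp (M' * (v : ℝ) / H) →
    ∀ φ : ℝ, ∑ m ∈ cellM M H v, FR R (k * ang (ϖ m) + φ) / (m : ℝ) ≤ C / v

/-- CELLE -/
def S_CELLE (t c : ℤ) : Prop := ∀ (Ap Bp M : ℕ → Prop) (E : ℕ) (ρ : ℕ → ℤ) (ϖ : ℕ → Qd t c),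
  Ele t c Ap Bp M E ρ ϖ → ∃ c' : ℝ, 0 < c' ∧ c' ≤ 1 ∧ ∃ Λ : ℕ, ∀ M' H : ℕ, 1 ≤ H →
    ∃ V₀ : ℕ, ∀ v₀ v₁ : ℕ, V₀ ≤ v₀ → Λ * v₀ ≤ v₁ → ∀ k : ℤ, k ≠ 0 →
    |(k : ℝ)| ≤ Real.exp (M' * (v₀ : ℝ) / H) →
    ∑ v ∈ Ico v₀ v₁, ‖PE M ϖ H v k‖ ≤ (1 - c') * ∑ v ∈ Ico v₀ v₁, mE M H v

/-- MR: the Matomaki-Radziwill theorem for the angles in the order -/
def S_MR (t c : ℤ) : Prop := ∀ η : ℝ, 0 < η → ∃ h : ℝ, 1 ≤ h ∧ ∃ Y₀ : ℝ, ∀ Y : ℝ, Y₀ ≤ Y →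
  ∑ k ∈ (FK ⌊Y / h⌋₊).erase 0, ‖GG t c Y k‖ ^ 2 ≤ η

/-! ### Statements, part 3: sign changes along Farey edges -/

/-- A0: the main frequency of the constant function is not small -/
def S_A0 (t c : ℤ) : Prop := ∃ c₀ : ℝ, 0 < c₀ ∧ ∃ Y₀ : ℝ, ∀ Y : ℝ, Y₀ ≤ Y →
  c₀ ≤ ∑ z ∈ pball t c (Real.exp 1 * Y), bg Y z

/-- SECT: few primitive vectors in a thin sector -/
def S_SECT (t c : ℤ) : Prop := ∃ C : ℝ, 0 < C ∧ ∀ (X δ θ : ℝ), 1 ≤ X → 0 ≤ δ → δ ≤ Real.pi →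
  (open scoped Classical in
    (((pball t c X).filter (fun z => ∃ j : ℤ, |ang z - θ + 2 * Real.pi * j| ≤ δ)).card : ℝ)) ≤
    C * (X * δ + 1)

/-- BETW: between two primitive vectors with different signs there is a sign change edge -/
def S_BETW (t c : ℤ) : Prop := ∀ (X : ℝ) (z z' : Qd t c), z ∈ pball t c X → z' ∈ pball t c X →
  0 < dt z z' → lam (nm z) ≠ lam (nm z') → ∃ e ∈ sedge t c X, 0 ≤ dt z e.1 ∧ 0 < dt z e.2 ∧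
    0 < dt e.1 z' ∧ 0 ≤ dt e.2 z'

/-- PAIR: pairs of close directions with different signs -/
def S_PAIR (t c : ℤ) : Prop := ∀ U : ℝ, 1 ≤ U → ∃ C : ℝ, 0 < C ∧ ∀ (X T : ℝ) (K : ℕ)
  (u : Qd t c), 1 ≤ X → 1 ≤ T → 1 ≤ K → 2 * T ≤ K → 1 ≤ nm u → (nm u : ℝ) ≤ U →
  (open scoped Classical in
    ∑ z ∈ pball t c X, ∑ z' ∈ pball t c X,
      (if gl z ≠ gl (u * z') then Fj K (ang z - ang (u * z')) else 0)) ≤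
    C * (K * (T * X / K + 1) ^ 2 * ((sedge t c (U * X)).card : ℝ) + X ^ 2 / T + X * K / T ^ 2)

/-- U0: the Liouville function is not constant on the norms -/
def S_U0 (t c : ℤ) : Prop := ∃ u : Qd t c, u ≠ 0 ∧ lam (nm u) = -1

/-- SC: a positive proportion of sign changes -/
def S_SC (t c : ℤ) : Prop := ∃ ε : ℝ, 0 < ε ∧ ∃ X₀ : ℝ, ∀ X : ℝ, X₀ ≤ X →
  ε * X ≤ ((sedge t c X).card : ℝ)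

/-! ### Statements, part 4: from edges to integers -/

/-- MULT: few pairs of determinant `1` with the same `ip` and the same first norm -/
def S_MULT (t c : ℤ) : Prop := ∀ (n : ℤ) (d : ℕ) (S : Finset (Qd t c × Qd t c)),
  (∀ e ∈ S, dt e.1 e.2 = 1 ∧ ip e.1 e.2 = n ∧ nm e.1 = d) → S.card ≤ 6

/-- TYP: a typical norm has at most `(1+ε) log log X` prime factors -/
def S_TYP (t c : ℤ) : Prop := ∀ ε δ : ℝ, 0 < ε → 0 < δ → ∃ X₀ : ℝ, ∀ X : ℝ, X₀ ≤ X →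
  (((pball t c X).filter (fun z =>
    (1 + ε) * Real.log (Real.log X) < (((nm z).primeFactors.card : ℕ) : ℝ))).card : ℝ) ≤ δ * X

/-- VE: from vertices to pairs -/
def S_VE (t c : ℤ) : Prop := ∃ C : ℝ, 0 < C ∧ ∀ (κ X : ℝ) (V : Finset (Qd t c)), 0 < κ → κ ≤ 1 →
  1 ≤ X → (open scoped Classical in
    (((dedge t c X).filter (fun e => e.1 ∈ V ∨ e.2 ∈ V)).card : ℝ)) ≤
    C * (κ * X + ((V ∩ pball t c X).card : ℝ) / κ)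

/-- EQU: upper bound for the number of pairs of determinant `1` in a residue class -/
def S_EQU (t c : ℤ) : Prop := ∃ C : ℝ, 0 < C ∧ ∀ A : ℕ, ∃ X₀ : ℝ, ∀ (X : ℝ) (M : ℕ)
  (x₁ y₁ x₂ y₂ : ℤ), X₀ ≤ X → 1 ≤ M → (M : ℝ) ≤ Real.log X ^ A →
  (open scoped Classical in
    (((dedge t c X).filter (fun e => (M : ℤ) ∣ e.1.re - x₁ ∧ (M : ℤ) ∣ e.1.im - y₁ ∧
      (M : ℤ) ∣ e.2.re - x₂ ∧ (M : ℤ) ∣ e.2.im - y₂)).card : ℝ)) ≤ C * X / (M : ℝ) ^ 3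

/-- LARGE: few pairs for which `n^2+tn+c` is divisible by the square of a large prime -/
def S_LARGE (t c : ℤ) : Prop := ∃ A : ℕ, ∀ δ : ℝ, 0 < δ → ∃ X₀ : ℝ, ∀ X : ℝ, X₀ ≤ X →
  (open scoped Classical in
    (((dedge t c X).filter (fun e => ∃ l : ℕ, l.Prime ∧ Real.log X ^ A < (l : ℝ) ∧
      l ^ 2 ∣ NN e)).card : ℝ)) ≤ δ * X

/-- SQB: few pairs for which `n^2+tn+c` is divisible by a large square -/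
def S_SQB (t c : ℤ) : Prop := ∀ δ : ℝ, 0 < δ → ∃ (S : ℕ) (X₀ : ℝ), ∀ X : ℝ, X₀ ≤ X →
  (open scoped Classical in
    (((dedge t c X).filter (fun e => ∃ q : ℕ, S < q ∧ q ^ 2 ∣ NN e)).card : ℝ)) ≤ δ * X

end Pool.Agent.W78.GA
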