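import Pool.Agent.W78.GA.T2
import Pool.Agent.W240.GA.LevA
import Pool.Agent.W240.GA.LevB
import Pool.Agent.W397.GA.Cnt
import Pool.Agent.W586.GA.Mach
import Pool.Agent.W45.GA.Lat
import Pool.Agent.W322.GA.Red
import Pool.Agent.W322.GA.LatI
import Pool.Agent.W327.GA.LS
import Pool.Agent.W397.GA.Ang2
import Pool.Agent.W191.GA.Sparse
import Pool.Agent.W573.GA.Ele
import Pool.Agent.W999.GA.TK
import Pool.Agent.W822.GA.Momp
import Pool.Agent.W669.GA.MomF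
import Pool.Agent.W109.GA.Fin
import Pool.Agent.W194.GA.Sele
import Pool.Agent.W586.GA.Celle
import Pool.Agent.W240.GA.A0
import Pool.Agent.W803.GA.Sect
import Pool.Agent.W803.GA.Pair
import Pool.Agent.W29.GA.Mult
import Pool.Agent.W29.GA.Ve
import Pool.Agent.W29.GA.Typ
import Pool.Agent.W591.GA.Equ
import Pool.Agent.W591.GA.Sqb
import Pool.Agent.W898.GA.Large
import Pool.Agent.W240.GA.U0
import Pool.Agent.W638.GA.Dec6

/-!
Project GA (helper78): all parts together.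
-/

set_option autoImplicit false

namespace Pool.Agent.W78.GA

open Finset Filter
open Pool.Agent.H376R2.MR

variable {t c : ℤ}

/-- the Matomaki-Radziwill theorem for the angles of the elements of an imaginary quadratic order -/
theorem mr (hD : t ^ 2 < 4 * c) (hang1 : S_ANG1 t c) : S_MR t c := by
  have hlat : S_LAT t c := Pool.Agent.W45.GA.lat hD
  have hred : S_RED t c := Pool.Agent.W322.GA.red hD
  have hlati : S_LATI t c := Pool.Agent.W322.GA.lati_of hD hlat hred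
  have hls : S_LS t c := Pool.Agent.W327.GA.ls hD
  have hang : S_ANG t c := Pool.Agent.W397.GA.ang_of hang1 (Pool.Agent.W397.GA.ang2 hD)
  have hangi : S_ANGI t c := Pool.Agent.W322.GA.angi_of hD hang hred
  have hmach : S_MACH := Pool.Agent.W586.GA.mach_of Pool.Agent.W240.GA.leva
    Pool.Agent.W240.GA.levb Pool.Agent.W397.GA.s_cnt Pool.Agent.W586.GA.upart
  have hdec : S_DEC t c := Pool.Agent.W638.GA.dec_of hD hlat hlati
    (Pool.Agent.W999.GA.tk_of hD hlat hlati)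
  exact mr_of hD hmach (Pool.Agent.W573.GA.ele hD) hdec
    (Pool.Agent.W822.GA.mom0_of hD hls hlat) (Pool.Agent.W822.GA.momp_of hD hls)
    (Pool.Agent.W669.GA.mom_of hD hls hlat hlati)
    (Pool.Agent.W191.GA.sparse_of hD hang hlat) hls
    (Pool.Agent.W586.GA.celle_of hD
      (Pool.Agent.W194.GA.sele_of hD hangi hlat (Pool.Agent.W109.GA.selb hD))) hlat

/-- a positive proportion of the Farey edges are sign changes -/
theorem sc (hD : t ^ 2 < 4 * c) (hang1 : S_ANG1 t c) : S_SC t c :=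
  sc_of hD (mr hD hang1) (Pool.Agent.W803.GA.pair_of hD (Pool.Agent.W803.GA.sect hD)
    (Pool.Agent.W803.GA.betw hD) (Pool.Agent.W45.GA.lat hD))
    (Pool.Agent.W240.GA.A0.a0_of hD (Pool.Agent.W45.GA.lat hD)) (Pool.Agent.W240.GA.u0 hD)

theorem sqb (hD : t ^ 2 < 4 * c) : S_SQB t c := by
  have hlat : S_LAT t c := Pool.Agent.W45.GA.lat hD
  have hred : S_RED t c := Pool.Agent.W322.GA.red hD
  have hlati : S_LATI t c := Pool.Agent.W322.GA.lati_of hD hlat hred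
  exact Pool.Agent.W591.GA.sqb_of hD (Pool.Agent.W591.GA.equ_of hD)
    (Pool.Agent.W898.GA.large_of hD (Pool.Agent.W29.GA.mult hD)) (Pool.Agent.W29.GA.ve hD) hlat hlati

/-- both parts, for both signs, in terms of `S_ANG1` -/
theorem both_of (hD : t ^ 2 < 4 * c) (hang1 : S_ANG1 t c) : ∃ S : ℕ,
    ∀ e : ℤ, e = 1 ∨ e = -1 →
    (∀ ε : ℝ, 0 < ε → ∃ N₀ : ℕ, ∀ N : ℕ, N₀ ≤ N → (N : ℝ) / Real.log N ^ (2 * Real.log 2 + ε) ≤
      (Set.ncard {n : ℕ | 1 ≤ n ∧ n ≤ N ∧ SqM S e ((n : ℤ) ^ 2 + t * n + c)} : ℝ)) ∧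
    ∃ κ : ℝ, 0 < κ ∧ ∃ N₀ : ℕ, ∀ N : ℕ, N₀ ≤ N → κ * N ≤
      (Set.ncard {p : ℕ × ℕ | 1 ≤ p.1 ∧ p.1 ≤ N ∧ 1 ≤ p.2 ∧ p.2 ≤ N ∧
        (∃ n : ℤ, ((p.1 * p.2 : ℕ) : ℤ) = n ^ 2 + t * n + c) ∧
        SqM S e ((p.1 * p.2 : ℕ) : ℤ)} : ℝ) := by
  classical
  have hlat : S_LAT t c := Pool.Agent.W45.GA.lat hD
  have hred : S_RED t c := Pool.Agent.W322.GA.red hD
  have hlati : S_LATI t c := Pool.Agent.W322.GA.lati_of hD hlat hred
  have hmult : S_MULT t c := Pool.Agent.W29.GA.mult hD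
  obtain ⟨S, hS⟩ := bs_all hD (sc hD hang1) (sqb hD)
  refine ⟨S, fun e he => ⟨fun ε hε => ?_, pairs_of hD hmult S e (hS e he)⟩⟩
  obtain ⟨N₀, h⟩ := count_of hD hmult (Pool.Agent.W29.GA.typ_of hD hlat hlati)
    (Pool.Agent.W29.GA.ve hD) S e (hS e he) ε hε
  refine ⟨N₀, fun N hN => (h N hN).trans (le_of_eq ?_)⟩
  have e1 : {n : ℕ | 1 ≤ n ∧ n ≤ N ∧ SqM S e ((n : ℤ) ^ 2 + t * n + c)} =
      (((Finset.Icc 1 N).filter
        (fun n : ℕ => SqM S e ((n : ℤ) ^ 2 + t * n + c)) : Finset ℕ) : Set ℕ) := by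
    ext n
    rw [Finset.mem_coe, Finset.mem_filter, Finset.mem_Icc, Set.mem_setOf_eq, and_assoc]
  rw [e1, Set.ncard_coe_finset]

end Pool.Agent.W78.GA
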