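import Pool.Agent.W78.GA.SC

/-!
Project GA (helper78): from a positive proportion of sign changes on Farey edges to the values of the
Liouville function at `n^2+tn+c`, `t^2 < 4c`.
-/

set_option autoImplicit false

namespace Pool.Agent.W78.GA

open Finset Filter
open Pool.Agent.H376R2.MR

variable {t c : ℤ}

lemma mem_dedge {X : ℝ} {e : Qd t c × Qd t c} :
    e ∈ dedge t c X ↔ e.1 ∈ pball t c X ∧ e.2 ∈ pball t c X ∧ dt e.1 e.2 = 1 := by
  simp [dedge, and_assoc]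

open scoped Classical in
/-- pairs of determinant one whose product of norms has no large square divisor, with sign `s` -/
noncomputable def Bs (t c : ℤ) (S : ℕ) (s : ℤ) (X : ℝ) : Finset (Qd t c × Qd t c) :=
  (dedge t c X).filter (fun e => (∀ q : ℕ, q ^ 2 ∣ NN e → q ≤ S) ∧ lam (NN e) = s)

lemma mem_Bs {S : ℕ} {s : ℤ} {X : ℝ} {e : Qd t c × Qd t c} :
    e ∈ Bs t c S s X ↔ e ∈ dedge t c X ∧ (∀ q : ℕ, q ^ 2 ∣ NN e → q ≤ S) ∧ lam (NN e) = s := by
  simp [Bs]

lemma Bs_mono {S S' : ℕ} (h : S ≤ S') (s : ℤ) (X : ℝ) : Bs t c S s X ⊆ Bs t c S' s X := by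
  intro e he
  rw [mem_Bs] at he ⊢
  exact ⟨he.1, fun q hq => (he.2.1 q hq).trans h, he.2.2⟩

lemma NN_ne (hD : t ^ 2 < 4 * c) {e : Qd t c × Qd t c} (h1 : prim e.1) (h2 : prim e.2) :
    NN e ≠ 0 := by
  unfold NN
  exact mul_ne_zero (nm_pos hD (prim_ne_zero h1)).ne' (nm_pos hD (prim_ne_zero h2)).ne'

lemma sedge_sub (hD : t ^ 2 < 4 * c) {X : ℝ} {e : Qd t c × Qd t c} (he : e ∈ sedge t c X) :
    e ∈ dedge t c X ∧ lam (NN e) = -1 := by
  classical
  simp only [sedge, edge, mem_filter, mem_product] at he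
  obtain ⟨⟨⟨h1, h2⟩, h3, -⟩, h4⟩ := he
  refine ⟨mem_dedge.2 ⟨h1, h2, h3⟩, ?_⟩
  unfold NN
  rw [lam_mul (nm_pos hD (prim_ne_zero ((mem_pball hD).1 h1).1)).ne'
    (nm_pos hD (prim_ne_zero ((mem_pball hD).1 h2).1)).ne']
  rcases lam_eq (nm e.1) with h5 | h5 <;> rcases lam_eq (nm e.2) with h6 | h6
  · exact absurd (h5.trans h6.symm) h4
  · rw [h5, h6]; norm_num
  · rw [h5, h6]; norm_num
  · exact absurd (h5.trans h6.symm) h4

/-- the pairs of determinant one with a given sign -/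
lemma neg_all (hD : t ^ 2 < 4 * c) (hsc : S_SC t c) : ∃ κ X₀ : ℝ, 0 < κ ∧ ∀ X : ℝ, X₀ ≤ X →
    (open scoped Classical in
      κ * X ≤ (((dedge t c X).filter (fun e => lam (NN e) = -1)).card : ℝ)) := by
  classical
  obtain ⟨ε, hε, X₁, hsc⟩ := hsc
  refine ⟨ε, X₁, hε, fun X hX => (hsc X hX).trans ?_⟩
  have : sedge t c X ⊆ (dedge t c X).filter (fun e => lam (NN e) = -1) := by
    intro e he
    exact mem_filter.2 (sedge_sub hD he)
  exact_mod_cast card_le_card this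

lemma dt_add_right (v u : Qd t c) : dt v (v + u) = dt v u := by
  unfold dt
  simp only [QuadraticAlgebra.re_add, QuadraticAlgebra.im_add]
  ring

lemma dt_add_left (v u : Qd t c) : dt (v + u) u = dt v u := by
  unfold dt
  simp only [QuadraticAlgebra.re_add, QuadraticAlgebra.im_add]
  ring

lemma prim_of_dt {v u : Qd t c} (h : dt v u = 1) : prim v ∧ prim u := by
  unfold prim dt at *
  constructor
  · rw [← Int.isCoprime_iff_gcd_eq_one]
    exact ⟨u.im, -u.re, by linarith⟩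
  · rw [← Int.isCoprime_iff_gcd_eq_one]
    exact ⟨-v.im, v.re, by linarith⟩

lemma nm_add_le (hD : t ^ 2 < 4 * c) (v u : Qd t c) :
    (nm (v + u) : ℝ) ≤ 2 * (nm v + nm u) := by
  have hd := disc_pos hD
  rw [nm_castR hD, nm_castR hD, nm_castR hD]
  simp only [QuadraticAlgebra.re_add, QuadraticAlgebra.im_add]
  push_cast
  nlinarith [sq_nonneg (2 * ((v.re : ℝ) - u.re) + t * ((v.im : ℝ) - u.im)),
    mul_nonneg hd.le (sq_nonneg ((v.im : ℝ) - u.im))]

lemma pos_all (hD : t ^ 2 < 4 * c) (hsc : S_SC t c) : ∃ κ X₀ : ℝ, 0 < κ ∧ ∀ X : ℝ, X₀ ≤ X →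
    (open scoped Classical in
      κ * X ≤ (((dedge t c X).filter (fun e => lam (NN e) = 1)).card : ℝ)) := by
  classical
  obtain ⟨ε, hε, X₁, hsc⟩ := hsc
  refine ⟨ε / 8, 4 * X₁, by positivity, fun X' hX' => ?_⟩
  obtain ⟨X, rfl⟩ : ∃ X : ℝ, X' = 4 * X := ⟨X' / 4, by ring⟩
  have hX : X₁ ≤ X := by linarith
  set T := (dedge t c (4 * X)).filter (fun e => lam (NN e) = 1) with hT
  -- the map
  set F : Qd t c × Qd t c → Qd t c × Qd t c := fun e =>
    if lam (nm e.1) = lam (nm (e.1 + e.2)) then (e.1, e.1 + e.2) else (e.1 + e.2, e.2) with hF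
  have hmaps : ∀ e ∈ sedge t c X, F e ∈ T := by
    intro e he
    have he' := he
    simp only [sedge, edge, mem_filter, mem_product] at he'
    obtain ⟨⟨⟨h1, h2⟩, h3, -⟩, h4⟩ := he'
    obtain ⟨p1, n1⟩ := (mem_pball hD).1 h1
    obtain ⟨p2, n2⟩ := (mem_pball hD).1 h2
    have hnn : (0 : ℝ) ≤ nm e.1 := Nat.cast_nonneg _
    have hXp : 0 ≤ X := hnn.trans n1
    have n3 : (nm (e.1 + e.2) : ℝ) ≤ 4 * X := by
      have := nm_add_le hD e.1 e.2
      linarith
    have d1 : dt e.1 (e.1 + e.2) = 1 := by rw [dt_add_right, h3]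
    have d2 : dt (e.1 + e.2) e.2 = 1 := by rw [dt_add_left, h3]
    have p3 : prim (e.1 + e.2) := (prim_of_dt d1).2
    have q1 : nm e.1 ≠ 0 := (nm_pos hD (prim_ne_zero p1)).ne'
    have q2 : nm e.2 ≠ 0 := (nm_pos hD (prim_ne_zero p2)).ne'
    have q3 : nm (e.1 + e.2) ≠ 0 := (nm_pos hD (prim_ne_zero p3)).ne'
    by_cases h : lam (nm e.1) = lam (nm (e.1 + e.2))
    · have : F e = (e.1, e.1 + e.2) := by rw [hF]; simp only [if_pos h]
      rw [this, hT, mem_filter, mem_dedge]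
      refine ⟨⟨(mem_pball hD).2 ⟨p1, by linarith⟩, (mem_pball hD).2 ⟨p3, n3⟩, d1⟩, ?_⟩
      unfold NN
      rw [lam_mul q1 q3, ← h]
      rcases lam_eq (nm e.1) with h5 | h5 <;> rw [h5] <;> norm_num
    · have : F e = (e.1 + e.2, e.2) := by rw [hF]; simp only [if_neg h]
      rw [this, hT, mem_filter, mem_dedge]
      refine ⟨⟨(mem_pball hD).2 ⟨p3, n3⟩, (mem_pball hD).2 ⟨p2, by linarith⟩, d2⟩, ?_⟩
      unfold NN
      rw [lam_mul q3 q2]
      rcases lam_eq (nm e.1) with h5 | h5 <;> rcases lam_eq (nm e.2) with h6 | h6 <;>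
        rcases lam_eq (nm (e.1 + e.2)) with h7 | h7 <;> simp_all
  have hfib : ∀ f ∈ T, ((sedge t c X).filter (fun e => F e = f)).card ≤ 2 := by
    intro f _
    have hsub : (sedge t c X).filter (fun e => F e = f) ⊆ {(f.1, f.2 - f.1), (f.1 - f.2, f.2)} := by
      intro e he
      obtain ⟨-, he2⟩ := mem_filter.1 he
      rw [mem_insert, mem_singleton]
      by_cases h : lam (nm e.1) = lam (nm (e.1 + e.2))
      · have : F e = (e.1, e.1 + e.2) := by rw [hF]; simp only [if_pos h]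
        rw [this] at he2
        left
        rw [← he2]
        ext <;> simp
      · have : F e = (e.1 + e.2, e.2) := by rw [hF]; simp only [if_neg h]
        rw [this] at he2
        right
        rw [← he2]
        ext <;> simp
    exact (card_le_card hsub).trans card_le_two
  have hcard : (sedge t c X).card ≤ 2 * T.card :=
    card_le_mul_card_image_of_maps_to hmaps 2 hfib
  have hcard' : ((sedge t c X).card : ℝ) ≤ 2 * (T.card : ℝ) := by exact_mod_cast hcard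
  have h1 := hsc X hX
  linarith

/-- a positive proportion of pairs with sign `e` and without large square divisors -/
theorem bs_all (hD : t ^ 2 < 4 * c) (hsc : S_SC t c) (hsqb : S_SQB t c) : ∃ S : ℕ,
    ∀ e : ℤ, e = 1 ∨ e = -1 → ∃ κ X₀ : ℝ, 0 < κ ∧ ∀ X : ℝ, X₀ ≤ X →
      κ * X ≤ ((Bs t c S e X).card : ℝ) := by
  classical
  have key : ∀ e : ℤ, (∃ κ X₀ : ℝ, 0 < κ ∧ ∀ X : ℝ, X₀ ≤ X →
      κ * X ≤ (((dedge t c X).filter (fun x => lam (NN x) = e)).card : ℝ)) →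
      ∃ S : ℕ, ∃ κ X₀ : ℝ, 0 < κ ∧ ∀ X : ℝ, X₀ ≤ X → κ * X ≤ ((Bs t c S e X).card : ℝ) := by
    rintro e ⟨κ, X₁, hκ, h⟩
    obtain ⟨S, X₂, hS⟩ := hsqb (κ / 2) (by linarith)
    refine ⟨S, κ / 2, max X₁ X₂, by linarith, fun X hX => ?_⟩
    have h1 := h X ((le_max_left _ _).trans hX)
    have h2 := hS X ((le_max_right _ _).trans hX)
    have h3 : (dedge t c X).filter (fun x => lam (NN x) = e) ⊆
        (dedge t c X).filter (fun e => ∃ q : ℕ, S < q ∧ q ^ 2 ∣ NN e) ∪ Bs t c S e X := by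
      intro x hx
      obtain ⟨hx1, hx2⟩ := mem_filter.1 hx
      by_cases h4 : ∃ q : ℕ, S < q ∧ q ^ 2 ∣ NN x
      · exact mem_union_left _ (mem_filter.2 ⟨hx1, h4⟩)
      · push Not at h4
        refine mem_union_right _ (mem_Bs.2 ⟨hx1, fun q hq => ?_, hx2⟩)
        by_contra h5
        exact h4 q (not_le.1 h5) hq
    have h4 : (((dedge t c X).filter (fun x => lam (NN x) = e)).card : ℝ) ≤
        (((dedge t c X).filter (fun e => ∃ q : ℕ, S < q ∧ q ^ 2 ∣ NN e)).card : ℝ) +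
        ((Bs t c S e X).card : ℝ) := by
      exact_mod_cast (card_le_card h3).trans (card_union_le _ _)
    linarith
  obtain ⟨S₁, h1⟩ := key 1 (pos_all hD hsc)
  obtain ⟨S₂, h2⟩ := key (-1) (neg_all hD hsc)
  refine ⟨max S₁ S₂, fun e he => ?_⟩
  rcases he with rfl | rfl
  · obtain ⟨κ, X₀, hκ, h⟩ := h1
    refine ⟨κ, X₀, hκ, fun X hX => (h X hX).trans ?_⟩
    exact_mod_cast card_le_card (Bs_mono (le_max_left _ _) _ _)
  · obtain ⟨κ, X₀, hκ, h⟩ := h2
    refine ⟨κ, X₀, hκ, fun X hX => (h X hX).trans ?_⟩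
    exact_mod_cast card_le_card (Bs_mono (le_max_right _ _) _ _)

/-- the square part -/
lemma sq_part {m S : ℕ} (hm : m ≠ 0) (h : ∀ q : ℕ, q ^ 2 ∣ m → q ≤ S) :
    ∃ s m' : ℕ, s ≠ 0 ∧ s ≤ S ∧ m = s ^ 2 * m' ∧ Squarefree m' ∧
      ArithmeticFunction.moebius m' = lam m := by
  obtain ⟨a, b, hab, hsq⟩ := Nat.sq_mul_squarefree m
  have hb : b ≠ 0 := by
    rintro rfl
    simp at hab
    exact hm hab.symm
  refine ⟨b, a, hb, h b ⟨a, hab.symm⟩, hab.symm, hsq, ?_⟩
  rw [ArithmeticFunction.moebius_apply_of_squarefree hsq, ← hab, lam_sq_mul hb hsq.ne_zero]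
  rfl

/-- the number of divisors of a number without large square divisors -/
lemma card_div_le {m S : ℕ} (hm : m ≠ 0) (h : ∀ q : ℕ, q ^ 2 ∣ m → q ≤ S) :
    m.divisors.card ≤ S ^ 2 * 2 ^ m.primeFactors.card := by
  classical
  obtain ⟨s, m', hs, hsS, rfl, hsq, -⟩ := sq_part hm h
  rw [Nat.divisors_mul]
  refine card_mul_le.trans (Nat.mul_le_mul ?_ ?_)
  · exact (Nat.card_divisors_le_self _).trans (Nat.pow_le_pow_left hsS 2)
  · have h1 : m'.divisors.card ≤ 2 ^ m'.primeFactors.card := by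
      rw [Nat.card_divisors hsq.ne_zero, ← prod_const]
      refine prod_le_prod' fun p _ => ?_
      have := hsq.natFactorization_le_one p
      omega
    refine h1.trans (Nat.pow_le_pow_right (by norm_num) (card_le_card ?_))
    exact Nat.primeFactors_mono (Dvd.intro_left _ rfl) hm

/-- the number of pairs with given `ip` -/
lemma fib_le (hD : t ^ 2 < 4 * c) (hmult : S_MULT t c) (n : ℤ) (S : Finset (Qd t c × Qd t c))
    (h : ∀ e ∈ S, dt e.1 e.2 = 1 ∧ ip e.1 e.2 = n) :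
    S.card ≤ 6 * ((n ^ 2 + t * n + c).natAbs).divisors.card := by
  classical
  refine card_le_mul_card_image_of_maps_to (f := fun e => nm e.1)
    (t := ((n ^ 2 + t * n + c).natAbs).divisors) ?_ 6 ?_
  · intro e he
    obtain ⟨h1, h2⟩ := h e he
    have h3 := NN_eq hD h1
    rw [h2] at h3
    rw [← h3, Int.natAbs_natCast]
    rw [Nat.mem_divisors]
    exact ⟨Dvd.intro _ rfl, NN_ne hD (prim_of_dt h1).1 (prim_of_dt h1).2⟩
  · intro d _
    refine hmult n d _ fun e he => ?_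
    obtain ⟨h1, h2⟩ := mem_filter.1 he
    exact ⟨(h e h1).1, (h e h1).2, h2⟩

end Pool.Agent.W78.GA
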